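import Pool.Agent.H.MP_aeb38e_lc.Main

/-!
Under the gap exponential time hypothesis, the exponent of `n` in the running time of any
approximation scheme for the job shop problem with `m` machines is at least linear in `m`, even
for unit processing times and at most `m - 1` jobs.
-/

namespace Pool.Agent.Results.MP_aeb38e_lc.LinearExponent

open Turing Pool.Agent.H.JS

/-- Assume the gap exponential time hypothesis. There is `b` such that for all `c` and `m` with
`b (c + 1) ≤ m` there is `e > 0` such that no algorithm with running time `O(n ^ c)` finds, for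
the instances with `m` machines, at most `m - 1` jobs and unit processing times, a schedule of
makespan at most `(1 + 1 / e) OPT`, or separates `OPT ≤ K` from `OPT > (1 + 1 / e) K`. In
particular, no algorithm does so for all `m` and `e` in time `f(m, e) p(n)`, for whatever
function `f` and polynomial `p`. -/
theorem result (h : GapETH) :
    (∃ b, ∀ c m, b * (c + 1) ≤ m → ∃ e, 0 < e ∧ ∀ (tm : FinTM2) (iA : tm.Γ tm.k₀ ≃ Bool)
      (oA : tm.Γ tm.k₁ ≃ Bool) (C : ℕ), ¬ IsScheme m e (fun n => C * (n ^ c + 1)) tm iA oA ∧
        ¬ IsGapTest m e (fun n => C * (n ^ c + 1)) tm iA oA) ∧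
    (∀ (f : ℕ → ℕ → ℕ) (p : Polynomial ℕ), ¬ ∃ (tm : FinTM2) (iA : tm.Γ tm.k₀ ≃ Bool)
      (oA : tm.Γ tm.k₁ ≃ Bool), ∀ m e, 0 < e →
        IsScheme m e (fun n => f m e * p.eval n) tm iA oA) :=
  main h

end Pool.Agent.Results.MP_aeb38e_lc.LinearExponent
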